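import Mathlib
import Pool.Agent.Y592.DS.Asym

set_option autoImplicit false

/-!
# Asymptotics of the parameters
-/

namespace Pool.Agent.Y592.FL

open Filter Pool.Agent.Y592.DS

/-- choice of `K`, `w` and `d` -/
theorem params (ε : ℝ) (hε : 0 < ε) (hε1 : ε ≤ 1) (c m E : ℕ) (hc : 1 ≤ c) (hE : 1 ≤ E)
    (hm : 8 * E / ε ≤ m) :
    ∀ᶠ N : ℕ in atTop, ∃ K w d : ℕ, K * (2 * (c * (Nat.log 2 N + 1))) ≤ N ∧
      32 * N ^ E ≤ w ^ m ∧ w * d ≤ K ∧ 2 ≤ d ∧ 7 * (N : ℝ) ^ (1 - ε / 2) ≤ d := by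
  have hER : (1 : ℝ) ≤ E := by exact_mod_cast hE
  have hm0 : (0 : ℝ) < m := lt_of_lt_of_le (by positivity) hm
  have hm1 : m ≠ 0 := by
    rintro rfl
    simp at hm0
  filter_upwards [ev_log (ε / 8) (by positivity), ev_const (ε / 4) (4096 * c) (by positivity),
    eventually_ge_atTop 2] with N h1 h2 h3
  have hN2 : (2 : ℝ) ≤ N := by exact_mod_cast h3
  have hN0 : (0 : ℝ) < N := by linarith
  have hNE : (1 : ℝ) ≤ (N : ℝ) ^ E := one_le_pow₀ (by linarith)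
  have hcR : (1 : ℝ) ≤ c := by exact_mod_cast hc
  obtain ⟨Lg, hLg⟩ : ∃ Lg : ℕ, Lg = Nat.log 2 N + 1 := ⟨_, rfl⟩
  rw [← hLg] at h1 ⊢
  have hLg1 : 1 ≤ Lg := by omega
  have hLgR : (1 : ℝ) ≤ Lg := by exact_mod_cast hLg1
  obtain ⟨K, hK⟩ : ∃ K : ℕ, K = N / (2 * (c * Lg)) := ⟨_, rfl⟩
  obtain ⟨w, hw⟩ : ∃ w : ℕ, w = ⌈(32 * (N : ℝ) ^ E) ^ ((1 : ℝ) / m)⌉₊ := ⟨_, rfl⟩
  -- w
  have hw1 : (32 * (N : ℝ) ^ E) ^ ((1 : ℝ) / m) ≤ w := by rw [hw]; exact Nat.le_ceil _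
  have hwpos : (1 : ℝ) ≤ (32 * (N : ℝ) ^ E) ^ ((1 : ℝ) / m) :=
    Real.one_le_rpow (by linarith) (by positivity)
  have hw2 : (w : ℝ) ≤ 2 * (32 * (N : ℝ) ^ E) ^ ((1 : ℝ) / m) := by
    have := (Nat.ceil_lt_add_one (a := (32 * (N : ℝ) ^ E) ^ ((1 : ℝ) / m)) (by positivity)).le
    rw [← hw] at this
    linarith
  have hmε : (E : ℝ) * (1 / m) ≤ ε / 8 := by
    rw [mul_one_div, div_le_iff₀ hm0]
    rw [div_le_iff₀ hε] at hm
    linarith
  have hm1' : (1 : ℝ) / m ≤ 1 := by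
    have : (1 : ℝ) / m ≤ E * (1 / m) := le_mul_of_one_le_left (by positivity) hER
    linarith
  have hw3 : (w : ℝ) ≤ 64 * (N : ℝ) ^ (ε / 8) := by
    have e1 : (32 * (N : ℝ) ^ E) ^ ((1 : ℝ) / m) =
        (32 : ℝ) ^ ((1 : ℝ) / m) * (N : ℝ) ^ ((E : ℝ) * (1 / m)) := by
      rw [Real.mul_rpow (by norm_num) (by positivity), ← Real.rpow_natCast (N : ℝ) E,
        ← Real.rpow_mul hN0.le]
    have e2 : (32 : ℝ) ^ ((1 : ℝ) / m) ≤ 32 := by
      calc (32 : ℝ) ^ ((1 : ℝ) / m) ≤ 32 ^ (1 : ℝ) :=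
            Real.rpow_le_rpow_of_exponent_le (by norm_num) hm1'
        _ = 32 := Real.rpow_one _
    have e3 : (N : ℝ) ^ ((E : ℝ) * (1 / m)) ≤ (N : ℝ) ^ (ε / 8) :=
      Real.rpow_le_rpow_of_exponent_le (by linarith) hmε
    have e4 : (32 : ℝ) ^ ((1 : ℝ) / m) * (N : ℝ) ^ ((E : ℝ) * (1 / m)) ≤
        32 * (N : ℝ) ^ (ε / 8) := mul_le_mul e2 e3 (by positivity) (by norm_num)
    rw [e1] at hw2
    linarith
  have hwm : 32 * N ^ E ≤ w ^ m := by
    have e1 : ((32 * (N : ℝ) ^ E) ^ ((1 : ℝ) / m)) ^ m = 32 * (N : ℝ) ^ E := by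
      rw [← Real.rpow_natCast _ m, ← Real.rpow_mul (by positivity), one_div,
        inv_mul_cancel₀ hm0.ne', Real.rpow_one]
    have e2 : (32 * (N : ℝ) ^ E) ≤ (w : ℝ) ^ m := by
      rw [← e1]
      exact pow_le_pow_left₀ (by positivity) hw1 m
    exact_mod_cast e2
  have hw0 : 0 < w := by
    rw [hw]
    exact Nat.ceil_pos.2 (by linarith)
  have hwR : (0 : ℝ) < w := by exact_mod_cast hw0
  -- K
  have hKle : K * (2 * (c * Lg)) ≤ N := by rw [hK]; exact Nat.div_mul_le_self _ _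
  have hcL : (0 : ℝ) < 2 * (c * Lg) := by positivity
  have hK1 : (N : ℝ) / (2 * (c * Lg)) - 1 ≤ K := by
    have e1 : N < (K + 1) * (2 * (c * Lg)) := by
      rw [hK, add_mul, one_mul]
      exact Nat.lt_div_mul_add (by positivity)
    have e2 : (N : ℝ) < (K + 1) * (2 * (c * Lg)) := by exact_mod_cast e1
    rw [sub_le_iff_le_add, div_le_iff₀ hcL]
    exact e2.le
  obtain ⟨X, hX⟩ : ∃ X : ℝ, X = (N : ℝ) ^ (ε / 8) := ⟨_, rfl⟩
  have hX1 : 1 ≤ X := by rw [hX]; exact Real.one_le_rpow (by linarith) (by positivity)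
  have hX2 : (N : ℝ) ^ (ε / 4) = X * X := by
    rw [hX, ← Real.rpow_add hN0]
    congr 1
    ring
  rw [← hX] at h1 hw3
  rw [hX2] at h2
  obtain ⟨Y, hY⟩ : ∃ Y : ℝ, Y = (N : ℝ) ^ (1 - ε / 2) := ⟨_, rfl⟩
  have hY1 : 1 ≤ Y := by rw [hY]; exact Real.one_le_rpow (by linarith) (by linarith)
  have hNXY : (N : ℝ) = Y * (X * X * (X * X)) := by
    rw [← hX2, hY, ← Real.rpow_add hN0, ← Real.rpow_add hN0]
    have : 1 - ε / 2 + (ε / 4 + ε / 4) = 1 := by ring
    rw [this, Real.rpow_one]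
  have hX0 : 0 < X := by linarith
  have hY0 : 0 < Y := by linarith
  -- K ≥ Y X X X / (4 c)
  have hK2 : Y * (X * X * X) / (4 * c) ≤ K := by
    have e1 : Y * (X * X * X) / (2 * c) ≤ (N : ℝ) / (2 * (c * Lg)) := by
      rw [div_le_div_iff₀ (by positivity) hcL, hNXY]
      have : Y * (X * X * X) * (2 * (c * Lg)) = Y * (X * X * X) * (2 * c) * Lg := by ring
      rw [this]
      have e2 : Y * (X * X * (X * X)) * (2 * c) = Y * (X * X * X) * (2 * c) * X := by ring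
      rw [e2]
      exact mul_le_mul_of_nonneg_left h1 (by positivity)
    have e3 : 1 ≤ Y * (X * X * X) / (4 * c) := by
      rw [le_div_iff₀ (by positivity)]
      have e4 : 4 * (c : ℝ) ≤ X * X := by linarith
      have e5 : X * X ≤ Y * (X * X * X) := by
        have : Y * (X * X * X) = X * X * (Y * X) := by ring
        rw [this]
        have e6 : 1 ≤ Y * X := by nlinarith
        nlinarith [mul_pos hX0 hX0]
      linarith
    have e4 : Y * (X * X * X) / (2 * c) = 2 * (Y * (X * X * X) / (4 * c)) := by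
      field_simp
      norm_num
    linarith
  refine ⟨K, w, K / w, hKle, hwm, Nat.mul_div_le K w, ?_, ?_⟩
  all_goals
    have e1 : (K : ℝ) < (K / w + 1 : ℕ) * w := by
      have : K < (K / w + 1) * w := by
        rw [add_mul, one_mul]
        exact Nat.lt_div_mul_add hw0
      exact_mod_cast this
    have e2 : 8 * Y * w ≤ K := by
      refine le_trans ?_ hK2
      rw [le_div_iff₀ (by positivity)]
      calc 8 * Y * w * (4 * c) ≤ 8 * Y * (64 * X) * (4 * c) := by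
            refine mul_le_mul_of_nonneg_right ?_ (by positivity)
            exact mul_le_mul_of_nonneg_left hw3 (by positivity)
        _ = 2048 * c * (Y * X) := by ring
        _ ≤ (X * X) * (Y * X) := by
            refine mul_le_mul_of_nonneg_right ?_ (by positivity)
            linarith
        _ = Y * (X * X * X) := by ring
    have e3 : 8 * Y < ((K / w + 1 : ℕ) : ℝ) := by
      by_contra hcon
      push Not at hcon
      have : ((K / w + 1 : ℕ) : ℝ) * w ≤ 8 * Y * w := mul_le_mul_of_nonneg_right hcon hwR.le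
      linarith
    push_cast at e3
  · have : (2 : ℝ) ≤ ((K / w : ℕ) : ℝ) := by linarith
    exact_mod_cast this
  · rw [← hY]
    linarith

end Pool.Agent.Y592.FL
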