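import Mathlib
import Pool.Agent.Y592.DS.Prob

set_option autoImplicit false
set_option linter.unusedSectionVars false
set_option linter.unusedVariables false

/-!
# The number of falsified lines of a refutation
-/

namespace Pool.Agent.Y592.FL

open Finset Pool.Agent.Y592.DS

variable {κ U : Type} [Fintype κ] [DecidableEq κ] [Fintype U] [DecidableEq U] {m : ℕ}
variable {bad : (Fin m → κ) → (Fin m → U) → Bool} {S a : ℕ}

/-- the assignments that falsify the line `f` -/
def fal (f : (κ → U) → Bool) : Finset (κ → U) := univ.filter fun z => f z = false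

/-- the canonical partition of the assignments that falsify `f` -/
noncomputable def pt (Q T : ℕ) (f : (κ → U) → Bool) : Finset (St κ U) := parts Q (fal f) ∅ T

theorem cst_empty (P : Finset (κ → U)) : Cst P ∅ := fun i hi => absurd hi (notMem_empty i)

theorem pt_spec (Q : ℕ) {T : ℕ} (hT : 1 ≤ T) (f : (κ → U) → Bool) :
    IsParts Q (fal f) ∅ T (pt Q T f) := parts_spec Q (cst_empty _) hT

/-- the states: the whole space, and the parts of the falsified sets of the functions in `A` -/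
noncomputable def sts (Q T : ℕ) (A : Finset ((κ → U) → Bool)) : Finset (St κ U) :=
  insert (univ, ∅) (A.biUnion fun f => pt Q T f)

/-- all constraints look random on the states -/
def Rnd1 (bad : (Fin m → κ) → (Fin m → U) → Bool) (Q : ℕ) (p x : ℝ) (T : ℕ)
    (A : Finset ((κ → U) → Bool)) : Prop :=
  ∀ σ ∈ sts Q T A, ∀ f ∈ A, ∀ J : Finset κ, Pseudo bad Q p x σ.1 (σ.1 ∩ uni (pt Q T f) J)

/-- the pairs of sets for which the constraints have to look random -/
noncomputable def fam1 (Q T : ℕ) (A : Finset ((κ → U) → Bool)) :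
    Finset (Finset (κ → U) × Finset (κ → U)) :=
  (sts Q T A ×ˢ A ×ˢ (univ : Finset (Finset κ))).image
    fun c => (c.1.1, c.1.1 ∩ uni (pt Q T c.2.1) c.2.2)

theorem card_sts (Q T : ℕ) (A : Finset ((κ → U) → Bool)) :
    (sts Q T A).card ≤ 1 + A.card * Fintype.card U ^ Fintype.card κ := by
  unfold sts
  refine (card_insert_le _ _).trans ?_
  rw [add_comm]
  exact Nat.add_le_add_left (card_biUnion_le_card_mul _ _ _ fun f _ => parts_card_le Q _ _ _) 1

theorem card_fam1 (Q T : ℕ) (A : Finset ((κ → U) → Bool)) :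
    (fam1 Q T A).card ≤
      (1 + A.card * Fintype.card U ^ Fintype.card κ) * A.card * 2 ^ Fintype.card κ := by
  unfold fam1
  refine card_image_le.trans ?_
  rw [card_product, card_product, card_univ, Fintype.card_finset, mul_assoc]
  exact Nat.mul_le_mul_right _ (card_sts Q T A)

theorem exists_rnd1 {M : ℕ} (hM : 0 < M) {Q : ℕ} (hQ : 0 < Q) {x0 : ℝ} (hx0 : 0 ≤ x0)
    (A : Finset ((κ → U) → Bool)) (T : ℕ)
    (h : (1 + (A.card : ℝ) * (Fintype.card U : ℝ) ^ Fintype.card κ) * A.card *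
      2 ^ Fintype.card κ * (Fintype.card κ : ℝ) ^ m * Real.exp (-(x0 * Q)) +
      (Fintype.card (κ → U) : ℝ) * Real.exp (-((Fintype.card κ : ℝ) ^ m / M)) < 1) :
    ∃ bad : (Fin m → κ) → (Fin m → U) → Bool,
      Rnd1 bad Q (1 / M) x0 T A ∧ ∀ z, ∃ C, bad C (at' C z) = true := by
  classical
  obtain ⟨bad, h1, h2⟩ := exists_bad (m := m) hM hQ hx0 (fam1 Q T A) (by
    intro PV hPV
    unfold fam1 at hPV
    obtain ⟨c, _, rfl⟩ := mem_image.1 hPV
    exact inter_subset_left) (by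
    refine lt_of_le_of_lt ?_ h
    have h3 : ((fam1 Q T A).card : ℝ) ≤ (1 + (A.card : ℝ) * (Fintype.card U : ℝ) ^
        Fintype.card κ) * A.card * 2 ^ Fintype.card κ := by
      exact_mod_cast card_fam1 Q T A
    have h4 : ((fam1 Q T A).card : ℝ) * (Fintype.card κ : ℝ) ^ m * Real.exp (-(x0 * Q)) ≤
        (1 + (A.card : ℝ) * (Fintype.card U : ℝ) ^ Fintype.card κ) * A.card *
        2 ^ Fintype.card κ * (Fintype.card κ : ℝ) ^ m * Real.exp (-(x0 * Q)) :=
      mul_le_mul_of_nonneg_right (mul_le_mul_of_nonneg_right h3 (by positivity))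
        (Real.exp_pos _).le
    linarith)
  refine ⟨bad, ?_, h2⟩
  intro σ hσ f hf J
  refine h1 (σ.1, σ.1 ∩ uni (pt Q T f) J) ?_
  unfold fam1
  rw [mem_image]
  refine ⟨(σ, f, J), ?_, rfl⟩
  simp only [mem_product, mem_univ, and_true]
  exact ⟨hσ, hf⟩

/-- the assignments in the parts with the property `q` -/
noncomputable def sel (Ps : Finset (St κ U)) (q : St κ U → Prop) [DecidablePred q] :
    Finset (κ → U) := (Ps.filter q).biUnion Prod.fst

/-- the mass of the bad parts of a line on a good state -/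
theorem bad_le {Q T d : ℕ} {p x0 : ℝ} (hp : 0 ≤ p) (hx0 : 0 ≤ x0) (hQ : 2 ≤ Q)
    (hU : Fintype.card U = Q ^ 2) (hd : d ≤ 2 * Fintype.card κ)
    (hT : T = Q ^ (2 * Fintype.card κ - d)) {A : Finset ((κ → U) → Bool)}
    (hr : Rnd1 bad Q p x0 T A) {σ : St κ U} (hσ : σ ∈ sts Q T A) (hs : Spread Q σ.1 σ.2)
    (hg : Good bad σ) {f : (κ → U) → Bool} (hf : f ∈ A) [DecidablePred (Good bad)] :
    ((σ.1 ∩ sel (pt Q T f) (fun x => ¬ Good bad x)).card : ℝ) ≤
      (2 * p * (d : ℝ) ^ m + (Fintype.card κ : ℝ) ^ m * x0) * σ.1.card := by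
  classical
  have hT1 : 1 ≤ T := by rw [hT]; exact Nat.one_le_pow _ _ (by omega)
  have hps := pt_spec (κ := κ) (U := U) Q hT1 f
  obtain ⟨Ps, hPs⟩ : ∃ Ps, Ps = pt Q T f := ⟨_, rfl⟩
  rw [← hPs] at hps ⊢
  have hdx : ∀ x ∈ Ps, x.2.card ≤ d := by
    intro x hx
    refine dim_le hQ hU (hps.nonempty x hx) (hps.cst x hx) ?_
    have h1 := hps.dense x hx
    rw [card_empty, pow_zero, mul_one, hT] at h1
    calc Q ^ (2 * Fintype.card κ) = Q ^ (2 * Fintype.card κ - d) * Q ^ d := by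
          rw [← pow_add, Nat.sub_add_cancel hd]
      _ ≤ x.1.card * Q ^ x.2.card * Q ^ d := Nat.mul_le_mul_right _ h1
  have hgood : Good bad (σ.1, σ.2) := hg
  have hJ : ∀ J, Pseudo bad Q p x0 σ.1 (σ.1 ∩ uni Ps J) := by
    intro J
    rw [hPs]
    exact hr σ hσ f hf J
  have hbm := badmass (P := σ.1) (I := σ.2) (Ps := Ps) hp hx0 hs hgood hps.disj hps.cst
    hJ (fun x => ¬ Good bad x) (fun _ _ h => h)
  have h1 : ∑ x ∈ Ps, ((σ.1 ∩ x.1).card : ℝ) * ((tup m x.2 \ tup m σ.2).card : ℝ) ≤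
      (∑ x ∈ Ps, ((σ.1 ∩ x.1).card : ℝ)) * (d : ℝ) ^ m := by
    rw [sum_mul]
    refine sum_le_sum fun x hx => mul_le_mul_of_nonneg_left ?_ (Nat.cast_nonneg _)
    have h2 : (tup m x.2 \ tup m σ.2).card ≤ d ^ m := by
      refine (card_le_card sdiff_subset).trans ?_
      rw [card_tup]
      exact Nat.pow_le_pow_left (hdx x hx) m
    exact_mod_cast h2
  have hWle : ∑ x ∈ Ps, ((σ.1 ∩ x.1).card : ℝ) ≤ σ.1.card := by
    have h2 : ∑ x ∈ Ps, (σ.1 ∩ x.1).card ≤ σ.1.card := by
      rw [← card_biUnion]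
      · exact card_le_card (biUnion_subset.2 fun x _ => inter_subset_left)
      · intro x hx y hy hxy
        exact disjoint_of_subset_left inter_subset_right
          (disjoint_of_subset_right inter_subset_right (hps.disj hx hy hxy))
    exact_mod_cast h2
  have h3 : ((σ.1 ∩ sel Ps (fun x => ¬ Good bad x)).card : ℝ) ≤
      ∑ x ∈ Ps.filter (fun x => ¬ Good bad x), ((σ.1 ∩ x.1).card : ℝ) := by
    have h4 : (σ.1 ∩ sel Ps (fun x => ¬ Good bad x)).card ≤
        ∑ x ∈ Ps.filter (fun x => ¬ Good bad x), (σ.1 ∩ x.1).card := by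
      unfold sel
      rw [inter_biUnion]
      exact card_biUnion_le
    exact_mod_cast h4
  have h5 : 2 * p * ∑ x ∈ Ps, ((σ.1 ∩ x.1).card : ℝ) * ((tup m x.2 \ tup m σ.2).card : ℝ) ≤
      2 * p * (σ.1.card * (d : ℝ) ^ m) :=
    mul_le_mul_of_nonneg_left (h1.trans (mul_le_mul_of_nonneg_right hWle (by positivity)))
      (by positivity)
  calc ((σ.1 ∩ sel Ps (fun x => ¬ Good bad x)).card : ℝ)
      ≤ _ := h3.trans hbm
    _ ≤ 2 * p * (σ.1.card * (d : ℝ) ^ m) + (Fintype.card κ : ℝ) ^ m * x0 * σ.1.card :=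
        add_le_add h5 le_rfl
    _ = (2 * p * (d : ℝ) ^ m + (Fintype.card κ : ℝ) ^ m * x0) * σ.1.card := by ring

/-- few assignments in a good state falsify one of the clauses of an inference -/
theorem clause_le (π : Ref bad S a) {Q : ℕ} {P : Finset (κ → U)} {I : Finset κ}
    (hs : Spread Q P I) (hg : Good bad (P, I)) (L : Fin S) :
    (P.filter fun z => ∃ c ∈ π.cl L, at' c.1 z = c.2).card * Q ≤ a * P.card := by
  classical
  have h3 : (P.filter fun z => ∃ c ∈ π.cl L, at' c.1 z = c.2) ⊆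
      (π.cl L).biUnion fun c => P.filter fun z => at' c.1 z = c.2 := by
    intro z hz
    rw [mem_filter] at hz
    obtain ⟨c, hc, hcz⟩ := hz.2
    exact mem_biUnion.2 ⟨c, hc, mem_filter.2 ⟨hz.1, hcz⟩⟩
  have h4 : ∀ c ∈ π.cl L, (P.filter fun z => at' c.1 z = c.2).card * Q ≤ P.card := by
    intro c hc
    by_cases hcI : ∀ j, c.1 j ∈ I
    · have : (P.filter fun z => at' c.1 z = c.2) = ∅ := by
        rw [filter_eq_empty_iff]
        intro z hz he
        have h5 := hg c.1 hcI z hz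
        rw [he, π.cl_bad L c hc] at h5
        exact absurd h5 (by simp)
      rw [this]; simp
    · push Not at hcI
      obtain ⟨j, hj⟩ := hcI
      refine le_trans (Nat.mul_le_mul_right _ (card_le_card ?_)) (hs (c.1 j) hj (c.2 j))
      intro z hz
      rw [mem_filter] at hz ⊢
      exact ⟨hz.1, by rw [← hz.2]⟩
  calc (P.filter fun z => ∃ c ∈ π.cl L, at' c.1 z = c.2).card * Q
      ≤ (∑ c ∈ π.cl L, (P.filter fun z => at' c.1 z = c.2).card) * Q :=
        Nat.mul_le_mul_right _ ((card_le_card h3).trans card_biUnion_le)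
    _ = ∑ c ∈ π.cl L, (P.filter fun z => at' c.1 z = c.2).card * Q := by rw [sum_mul]
    _ ≤ ∑ c ∈ π.cl L, P.card := sum_le_sum h4
    _ = (π.cl L).card * P.card := by rw [sum_const, smul_eq_mul]
    _ ≤ a * P.card := Nat.mul_le_mul_right _ (π.card_cl L)

theorem univ_spread (Q : ℕ) (hU : Fintype.card U = Q ^ 2) (hQ : 1 ≤ Q) :
    Spread Q (univ : Finset (κ → U)) ∅ := by
  intro j _ v
  have hj : Cst ((univ : Finset (κ → U)).filter fun z => z j = v) {j} := by
    intro j' hj' z hz z' hz'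
    rw [mem_singleton] at hj'
    subst hj'
    rw [(mem_filter.1 hz).2, (mem_filter.1 hz').2]
  have h1 := hj.card_le
  rw [card_singleton, pow_one, hU] at h1
  rw [card_univ, Fintype.card_fun, hU]
  refine le_trans (Nat.mul_le_mul_left _ ?_) h1
  rw [pow_two]
  exact Nat.le_mul_of_pos_left _ hQ

/-- **The average number of falsified lines.** -/
theorem falsified_ge (π : Ref bad S a) {Q T d : ℕ} {p x0 : ℝ} (hp : 0 ≤ p) (hx0 : 0 ≤ x0)
    (hm : 0 < m) (hQ : 2 ≤ Q) (hU : Fintype.card U = Q ^ 2) (hd : d ≤ 2 * Fintype.card κ)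
    (hT : T = Q ^ (2 * Fintype.card κ - d)) {A : Finset ((κ → U) → Bool)}
    (hr : Rnd1 bad Q p x0 T A) (hA : ∀ j, π.line j ∈ A)
    (hlt : ∀ j, ∀ q ∈ π.prem j, q < j) {L : Fin S} (hL : ∀ z, π.line L z = false) {e : ℝ}
    (he : e = 2 * p * (d : ℝ) ^ m + (Fintype.card κ : ℝ) ^ m * x0) :
    (Fintype.card (κ → U) : ℝ) ≤ e * Fintype.card (κ → U) + S * T +
      (a / Q + a * e) * ∑ j, ((fal (π.line j)).card : ℝ) := by
  classical
  have hT1 : 1 ≤ T := by rw [hT]; exact Nat.one_le_pow _ _ (by omega)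
  have he0 : 0 ≤ e := by rw [he]; positivity
  have hQ' : (0 : ℝ) < Q := by exact_mod_cast (by omega : 0 < Q)
  obtain ⟨Ps, hPs⟩ : ∃ Ps : Fin S → Finset (St κ U), ∀ j, Ps j = pt Q T (π.line j) :=
    ⟨_, fun _ => rfl⟩
  have hps : ∀ j, IsParts Q (fal (π.line j)) ∅ T (Ps j) := fun j => by
    rw [hPs]; exact pt_spec Q hT1 _
  -- the three kinds of events
  obtain ⟨Bd, hBd⟩ : ∃ Bd : Fin S → Finset (κ → U), ∀ j, Bd j =
      sel (Ps j) (fun x => ¬ Good bad x) := ⟨_, fun _ => rfl⟩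
  obtain ⟨Ds, hDs⟩ : ∃ Ds : Fin S → Finset (κ → U), ∀ j, Ds j =
      fal (π.line j) \ (Ps j).biUnion Prod.fst := ⟨_, fun _ => rfl⟩
  obtain ⟨Gd, hGd⟩ : ∃ Gd : Fin S → Finset (κ → U), ∀ j, Gd j =
      sel (Ps j) (Good bad) := ⟨_, fun _ => rfl⟩
  obtain ⟨E1, hE1⟩ : ∃ E1 : Fin S → Finset (κ → U), ∀ j, E1 j =
      (Gd j).filter fun z => ∃ c ∈ π.cl j, at' c.1 z = c.2 := ⟨_, fun _ => rfl⟩
  obtain ⟨E2, hE2⟩ : ∃ E2 : Fin S → Fin S → Finset (κ → U), ∀ j q, E2 j q = Gd j ∩ Bd q :=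
    ⟨_, fun _ _ => rfl⟩
  have hcases : ∀ j z, π.line j z = false → z ∈ Gd j ∨ z ∈ Bd j ∨ z ∈ Ds j := by
    intro j z hz
    by_cases h1 : z ∈ (Ps j).biUnion Prod.fst
    · obtain ⟨x, hx, hzx⟩ := mem_biUnion.1 h1
      by_cases hg : Good bad x
      · left
        rw [hGd, sel, mem_biUnion]
        exact ⟨x, mem_filter.2 ⟨hx, hg⟩, hzx⟩
      · right; left
        rw [hBd, sel, mem_biUnion]
        exact ⟨x, mem_filter.2 ⟨hx, hg⟩, hzx⟩
    · right; right
      rw [hDs, mem_sdiff, fal, mem_filter]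
      exact ⟨⟨mem_univ _, hz⟩, h1⟩
  have hcover : (univ : Finset (κ → U)) ⊆ Bd L ∪ (univ.biUnion Ds ∪ (univ.biUnion E1 ∪
      univ.biUnion fun j => (π.prem j).biUnion (E2 j))) := by
    intro z _
    simp only [mem_union, mem_biUnion, mem_univ, true_and]
    by_cases hGL : ∃ j, π.line j z = false ∧ z ∈ Gd j
    · -- the smallest good line
      obtain ⟨j0, hj0, hmin⟩ := exists_min_image
        (univ.filter fun j => π.line j z = false ∧ z ∈ Gd j) (fun j => j) (by
          obtain ⟨j, hj⟩ := hGL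
          exact ⟨j, mem_filter.2 ⟨mem_univ _, hj⟩⟩)
      rw [mem_filter] at hj0
      rcases π.sound j0 z hj0.2.1 with ⟨q, hq, hqz⟩ | hc
      · rcases hcases q z hqz with h | h | h
        · exact absurd (hmin q (mem_filter.2 ⟨mem_univ _, hqz, h⟩)) (not_le.2 (hlt j0 q hq))
        · right; right; right
          refine ⟨j0, q, hq, ?_⟩
          rw [hE2, mem_inter]
          exact ⟨hj0.2.2, h⟩
        · right; left
          exact ⟨q, h⟩
      · right; right; left
        refine ⟨j0, ?_⟩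
        rw [hE1, mem_filter]
        exact ⟨hj0.2.2, hc⟩
    · push Not at hGL
      rcases hcases L z (hL z) with h | h | h
      · exact absurd h (hGL L (hL z))
      · exact Or.inl h
      · exact Or.inr (Or.inl ⟨L, h⟩)
  have hcount : Fintype.card (κ → U) ≤ (Bd L).card + (∑ j, (Ds j).card + (∑ j, (E1 j).card +
      ∑ j, ∑ q ∈ π.prem j, (E2 j q).card)) := by
    rw [← card_univ]
    refine (card_le_card hcover).trans ((card_union_le _ _).trans (Nat.add_le_add_left
      ((card_union_le _ _).trans (Nat.add_le_add card_biUnion_le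
      ((card_union_le _ _).trans (Nat.add_le_add card_biUnion_le ?_)))) _))
    exact card_biUnion_le.trans (sum_le_sum fun j _ => card_biUnion_le)
  -- bounds
  have hmemst : ∀ j, ∀ x ∈ Ps j, x ∈ sts Q T A := by
    intro j x hx
    rw [hPs] at hx
    unfold sts
    exact mem_insert_of_mem (mem_biUnion.2 ⟨_, hA j, hx⟩)
  have hGsum : ∀ j, ∑ x ∈ (Ps j).filter (Good bad), (x.1.card : ℝ) ≤
      (fal (π.line j)).card := by
    intro j
    have h1 : ∑ x ∈ (Ps j).filter (Good bad), x.1.card ≤ (fal (π.line j)).card := by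
      rw [← card_biUnion]
      · exact card_le_card (biUnion_subset.2 fun x hx => (hps j).sub x (mem_filter.1 hx).1)
      · intro x hx y hy hxy
        exact (hps j).disj (mem_filter.1 hx).1 (mem_filter.1 hy).1 hxy
    exact_mod_cast h1
  have hb0 : ((Bd L).card : ℝ) ≤ e * Fintype.card (κ → U) := by
    obtain ⟨σ0, hσ0⟩ : ∃ σ0 : St κ U, σ0 = (univ, ∅) := ⟨_, rfl⟩
    have h1 := bad_le (bad := bad) hp hx0 hQ hU hd hT hr (σ := σ0)
      (by rw [hσ0]; unfold sts; exact mem_insert_self _ _)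
      (by rw [hσ0]; exact univ_spread Q hU (by omega))
      (by rw [hσ0]; exact fun C hC => absurd (hC ⟨0, hm⟩) (notMem_empty _)) (hA L)
    rw [← hPs, ← hBd, ← he] at h1
    have h2 : σ0.1 = univ := by rw [hσ0]
    rw [h2, univ_inter, card_univ] at h1
    exact h1
  have hDs' : ∀ j, ((Ds j).card : ℝ) ≤ T := by
    intro j
    have h1 : (Ds j).card = (fal (π.line j)).card - ∑ x ∈ Ps j, x.1.card := by
      rw [hDs, card_sdiff_of_subset (biUnion_subset.2 (hps j).sub), card_biUnion (hps j).disj]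
    have h2 := (hps j).rest
    have h3 : (Ds j).card ≤ T := by omega
    exact_mod_cast h3
  have hE1' : ∀ j, ((E1 j).card : ℝ) ≤ a / Q * (fal (π.line j)).card := by
    intro j
    have h1 : (E1 j).card ≤ ∑ x ∈ (Ps j).filter (Good bad),
        (x.1.filter fun z => ∃ c ∈ π.cl j, at' c.1 z = c.2).card := by
      rw [hE1, hGd, sel, filter_biUnion]
      exact card_biUnion_le
    have h2 : ∀ x ∈ (Ps j).filter (Good bad),
        ((x.1.filter fun z => ∃ c ∈ π.cl j, at' c.1 z = c.2).card : ℝ) ≤ a / Q * x.1.card := by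
      intro x hx
      rw [mem_filter] at hx
      have hgx : Good bad (x.1, x.2) := hx.2
      have h3 := clause_le π ((hps j).spread x hx.1) hgx j
      have h4 : ((x.1.filter fun z => ∃ c ∈ π.cl j, at' c.1 z = c.2).card : ℝ) * Q ≤
          a * x.1.card := by exact_mod_cast h3
      rw [div_mul_eq_mul_div, le_div_iff₀ hQ']
      exact h4
    have h3 : ((E1 j).card : ℝ) ≤ ∑ x ∈ (Ps j).filter (Good bad),
        ((x.1.filter fun z => ∃ c ∈ π.cl j, at' c.1 z = c.2).card : ℝ) := by exact_mod_cast h1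
    refine h3.trans ((sum_le_sum h2).trans ?_)
    rw [← mul_sum]
    exact mul_le_mul_of_nonneg_left (hGsum j) (by positivity)
  have hE2' : ∀ j, ∀ q ∈ π.prem j, ((E2 j q).card : ℝ) ≤ e * (fal (π.line j)).card := by
    intro j q _
    have h1 : (E2 j q).card ≤ ∑ x ∈ (Ps j).filter (Good bad), (x.1 ∩ Bd q).card := by
      rw [hE2, hGd, sel, biUnion_inter]
      exact card_biUnion_le
    have h2 : ∀ x ∈ (Ps j).filter (Good bad), ((x.1 ∩ Bd q).card : ℝ) ≤ e * x.1.card := by
      intro x hx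
      rw [mem_filter] at hx
      have h3 := bad_le (bad := bad) hp hx0 hQ hU hd hT hr (σ := x) (hmemst j x hx.1)
        ((hps j).spread x hx.1) hx.2 (hA q)
      rw [← hPs, ← hBd, ← he] at h3
      exact h3
    have h3 : ((E2 j q).card : ℝ) ≤ ∑ x ∈ (Ps j).filter (Good bad), ((x.1 ∩ Bd q).card : ℝ) := by
      exact_mod_cast h1
    refine h3.trans ((sum_le_sum h2).trans ?_)
    rw [← mul_sum]
    exact mul_le_mul_of_nonneg_left (hGsum j) he0
  have hsum2 : ∀ j, ∑ q ∈ π.prem j, ((E2 j q).card : ℝ) ≤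
      a * (e * (fal (π.line j)).card) := by
    intro j
    refine (sum_le_sum (hE2' j)).trans ?_
    rw [sum_const, nsmul_eq_mul]
    refine mul_le_mul_of_nonneg_right ?_ (by positivity)
    exact_mod_cast π.card_prem j
  have hreal : (Fintype.card (κ → U) : ℝ) ≤ (Bd L).card + (∑ j, ((Ds j).card : ℝ) +
      (∑ j, ((E1 j).card : ℝ) + ∑ j, ∑ q ∈ π.prem j, ((E2 j q).card : ℝ))) := by
    exact_mod_cast hcount
  have s1 : ∑ j, ((Ds j).card : ℝ) ≤ S * T := by
    refine (sum_le_sum fun j _ => hDs' j).trans ?_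
    rw [sum_const, card_univ, Fintype.card_fin, nsmul_eq_mul]
  have s2 : ∑ j, ((E1 j).card : ℝ) ≤ a / Q * ∑ j, ((fal (π.line j)).card : ℝ) := by
    rw [mul_sum]
    exact sum_le_sum fun j _ => hE1' j
  have s3 : ∑ j, ∑ q ∈ π.prem j, ((E2 j q).card : ℝ) ≤
      a * e * ∑ j, ((fal (π.line j)).card : ℝ) := by
    rw [mul_sum]
    refine sum_le_sum fun j _ => (hsum2 j).trans (le_of_eq (by ring))
  rw [add_mul]
  linarith

end Pool.Agent.Y592.FL
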