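import Mathlib
import Pool.Agent.Y592.DS.Num
import Pool.Agent.Y592.FL.Core

set_option autoImplicit false
set_option linter.unusedSectionVars false
set_option linter.unusedVariables false

/-!
# Choice of the parameters
-/

namespace Pool.Agent.Y592.FL

open Finset Pool.Agent.Y592.DS

theorem num1 {k m N y K : ℕ} (hN : m + 42 ≤ N) (hy : y = N ^ k) (hKN : K ≤ N) :
    ((y + N) + N + 1) + (y + N) + K + K * m + 2 ≤ N ^ (k + 3) := by
  have hy1 : 1 ≤ y := by rw [hy]; exact Nat.one_le_pow _ _ (by omega)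
  have h3 : K + K * m ≤ N * (m + 1) := by
    calc K + K * m = K * (m + 1) := by ring
      _ ≤ N * (m + 1) := Nat.mul_le_mul_right _ hKN
  obtain ⟨W, hW⟩ : ∃ W : ℕ, W = y * N := ⟨_, rfl⟩
  have g1 : y ≤ W := by rw [hW]; exact Nat.le_mul_of_pos_right _ (by omega)
  have g2 : N ≤ W := by rw [hW]; exact Nat.le_mul_of_pos_left _ hy1
  have g5 : N * (m + 1) ≤ W * (m + 1) := Nat.mul_le_mul_right _ g2
  have g6 : ((y + N) + N + 1) + (y + N) + K + K * m + 2 ≤ 8 * W + W * (m + 1) := by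
    generalize N * (m + 1) = x1 at *
    generalize W * (m + 1) = x2 at *
    generalize K * m = x3 at *
    omega
  refine g6.trans ?_
  calc 8 * W + W * (m + 1) = W * (m + 9) := by ring
    _ ≤ W * N := Nat.mul_le_mul_left _ (by omega)
    _ ≤ W * N * N := Nat.le_mul_of_pos_right _ (by omega)
    _ = N ^ (k + 3) := by rw [hW, hy]; ring

/-- the random constraints exist -/
theorem exists_rnd_num (k c m : ℕ) (hm : 0 < m) {N : ℕ} (hN : m + 42 ≤ N) {Lg β K w d T : ℕ}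
    (hLg : N < 2 ^ Lg) (hLg1 : 1 ≤ Lg) (hβ : β = (2 * k + c + m + 8) * Lg) (hK : K * (2 * β) ≤ N)
    (hw : 32 * N ^ (k + c + 1) ≤ w ^ m) (hwd : w * d ≤ K) (hd : 1 ≤ d)
    (A : Finset ((Fin K → (Fin (2 * β) → Bool)) → Bool)) (hA : A.card ≤ 2 ^ (N ^ k + N)) :
    ∃ bad : (Fin m → Fin K) → (Fin m → (Fin (2 * β) → Bool)) → Bool,
      Rnd1 bad (2 ^ β) (1 / ((16 * N ^ (k + c) * d ^ m : ℕ) : ℝ))
        (1 / 2 ^ ((k + c + m) * Lg + 5)) T A ∧
      ∀ z, ∃ C, bad C (at' C z) = true := by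
  classical
  have hN0 : 0 < N := by omega
  have hβ1 : 1 ≤ β := by rw [hβ]; nlinarith
  have hKN : K ≤ N := by nlinarith
  obtain ⟨y, hy⟩ : ∃ y : ℕ, y = N ^ k := ⟨_, rfl⟩
  have hy1 : 1 ≤ y := by rw [hy]; exact Nat.one_le_pow _ _ (by omega)
  rw [← hy] at hA
  have hZ : Fintype.card (Fin K → (Fin (2 * β) → Bool)) = 2 ^ (2 * β * K) := by
    simp [pow_mul]
  have hZle : Fintype.card (Fin K → (Fin (2 * β) → Bool)) ≤ 2 ^ N := by
    rw [hZ]
    exact Nat.pow_le_pow_right (by norm_num) (by rw [mul_comm]; exact hK)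
  have hUK : Fintype.card (Fin (2 * β) → Bool) ^ Fintype.card (Fin K) ≤ 2 ^ N := by
    rw [← Fintype.card_fun (α := Fin K)]
    exact hZle
  have hsts : 1 + A.card * Fintype.card (Fin (2 * β) → Bool) ^ Fintype.card (Fin K) ≤
      2 ^ ((y + N) + N + 1) := by
    have h1 : A.card * Fintype.card (Fin (2 * β) → Bool) ^ Fintype.card (Fin K) ≤
        2 ^ ((y + N) + N) := by
      rw [pow_add _ _ N]
      exact Nat.mul_le_mul hA hUK
    have h2 : 1 ≤ 2 ^ ((y + N) + N) := Nat.one_le_two_pow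
    rw [pow_succ]
    omega
  obtain ⟨γ, hγ⟩ : ∃ γ : ℕ, γ + ((k + c + m) * Lg + 5) = β := by
    refine ⟨β - ((k + c + m) * Lg + 5), Nat.sub_add_cancel ?_⟩
    rw [hβ]
    nlinarith
  have hγ2 : (k + 3) * Lg ≤ γ := by
    have : (k + 3) * Lg + ((k + c + m) * Lg + 5) ≤ (2 * k + c + m + 8) * Lg := by nlinarith
    rw [← hβ] at this
    omega
  have hγN : N ^ (k + 3) ≤ 2 ^ γ := by
    calc N ^ (k + 3) ≤ (2 ^ Lg) ^ (k + 3) := Nat.pow_le_pow_left hLg.le _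
      _ = 2 ^ ((k + 3) * Lg) := by rw [← pow_mul, mul_comm]
      _ ≤ 2 ^ γ := Nat.pow_le_pow_right (by norm_num) hγ2
  obtain ⟨E, hE⟩ : ∃ E : ℕ, E = ((y + N) + N + 1) + (y + N) + K + K * m := ⟨_, rfl⟩
  have hEN : E + 2 ≤ 2 ^ γ := by
    refine le_trans ?_ hγN
    rw [hE]
    exact num1 hN hy hKN
  have hx0Q : (1 / 2 ^ ((k + c + m) * Lg + 5) : ℝ) * ((2 ^ β : ℕ) : ℝ) = ((2 ^ γ : ℕ) : ℝ) := by
    obtain ⟨δ, hδ⟩ : ∃ δ : ℕ, δ = (k + c + m) * Lg + 5 := ⟨_, rfl⟩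
    rw [← hγ, ← hδ]
    push_cast
    rw [pow_add]
    field_simp
  refine exists_rnd1 (m := m) (M := 16 * N ^ (k + c) * d ^ m) (by positivity) (by positivity)
    (by positivity) A T ?_
  rw [hx0Q]
  have h1 : (1 + (A.card : ℝ) * (Fintype.card (Fin (2 * β) → Bool) : ℝ) ^
      Fintype.card (Fin K)) * A.card * 2 ^ Fintype.card (Fin K) *
      (Fintype.card (Fin K) : ℝ) ^ m ≤ 2 ^ E := by
    have h2 : (1 + A.card * Fintype.card (Fin (2 * β) → Bool) ^ Fintype.card (Fin K)) * A.card *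
        2 ^ K * K ^ m ≤ 2 ^ E := by
      have e2 : K ^ m ≤ 2 ^ (K * m) := by
        rw [pow_mul]
        exact Nat.pow_le_pow_left Nat.lt_two_pow_self.le _
      rw [hE, pow_add, pow_add, pow_add _ ((y + N) + N + 1)]
      exact Nat.mul_le_mul (Nat.mul_le_mul (Nat.mul_le_mul hsts hA) le_rfl) e2
    have h3 : ((1 + A.card * Fintype.card (Fin (2 * β) → Bool) ^ Fintype.card (Fin K)) * A.card *
        2 ^ K * K ^ m : ℝ) ≤ 2 ^ E := by exact_mod_cast h2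
    rw [Fintype.card_fin (n := K)] at h3 ⊢
    exact h3
  have h2 : Real.exp (-((2 ^ γ : ℕ) : ℝ)) ≤ 1 / 2 ^ (E + 2) := by
    refine (exp_neg_le _).trans ?_
    refine one_div_le_one_div_of_le (by positivity) ?_
    exact pow_le_pow_right₀ (by norm_num) hEN
  have h3 : (1 + (A.card : ℝ) * (Fintype.card (Fin (2 * β) → Bool) : ℝ) ^
      Fintype.card (Fin K)) * A.card * 2 ^ Fintype.card (Fin K) *
      (Fintype.card (Fin K) : ℝ) ^ m * Real.exp (-((2 ^ γ : ℕ) : ℝ)) ≤ 1 / 4 := by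
    refine (mul_le_mul h1 h2 (Real.exp_pos _).le (by positivity)).trans (le_of_eq ?_)
    rw [pow_add]
    field_simp
    norm_num
  have h4 : ((Fintype.card (Fin K → (Fin (2 * β) → Bool)) : ℕ) : ℝ) *
      Real.exp (-((Fintype.card (Fin K) : ℝ) ^ m / ((16 * N ^ (k + c) * d ^ m : ℕ) : ℝ))) ≤
        1 / 4 := by
    rw [Fintype.card_fin (n := K)]
    have h5 : ((2 * N : ℕ) : ℝ) ≤ (K : ℝ) ^ m / ((16 * N ^ (k + c) * d ^ m : ℕ) : ℝ) := by
      rw [le_div_iff₀ (by positivity)]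
      have h6 : 2 * N * (16 * N ^ (k + c) * d ^ m) ≤ K ^ m := by
        calc 2 * N * (16 * N ^ (k + c) * d ^ m) = 32 * N ^ (k + c + 1) * d ^ m := by ring
          _ ≤ w ^ m * d ^ m := Nat.mul_le_mul_right _ hw
          _ = (w * d) ^ m := (mul_pow _ _ _).symm
          _ ≤ K ^ m := Nat.pow_le_pow_left hwd _
      exact_mod_cast h6
    have h6 : Real.exp (-((K : ℝ) ^ m / ((16 * N ^ (k + c) * d ^ m : ℕ) : ℝ))) ≤
        1 / 2 ^ (2 * N) := by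
      refine (Real.exp_le_exp.2 (neg_le_neg h5)).trans (exp_neg_le _)
    have h7 : ((Fintype.card (Fin K → (Fin (2 * β) → Bool)) : ℕ) : ℝ) ≤ 2 ^ N := by
      exact_mod_cast hZle
    calc ((Fintype.card (Fin K → (Fin (2 * β) → Bool)) : ℕ) : ℝ) *
          Real.exp (-((K : ℝ) ^ m / ((16 * N ^ (k + c) * d ^ m : ℕ) : ℝ)))
        ≤ 2 ^ N * (1 / 2 ^ (2 * N)) := mul_le_mul h7 h6 (Real.exp_pos _).le (by positivity)
      _ = 1 / 2 ^ N := by
          rw [two_mul, pow_add]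
          field_simp
      _ ≤ 1 / 2 ^ 2 := one_div_le_one_div_of_le (by positivity)
          (pow_le_pow_right₀ (by norm_num) (by omega))
      _ = 1 / 4 := by norm_num
  linarith

/-- the lower bound with explicit parameters -/
theorem fals_num (k c m : ℕ) (hm : 0 < m) {N : ℕ} (hN : m + 42 ≤ N) {Lg β K w d : ℕ}
    (hLg : N < 2 ^ Lg) (hLg1 : 1 ≤ Lg) (hβ : β = (2 * k + c + m + 8) * Lg) (hK : K * (2 * β) ≤ N)
    (hw : 32 * N ^ (k + c + 1) ≤ w ^ m) (hwd : w * d ≤ K) (hd : 1 ≤ d)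
    (A : Finset ((Fin K → (Fin (2 * β) → Bool)) → Bool)) (hA : A.card ≤ 2 ^ (N ^ k + N)) :
    ∃ bad : (Fin m → Fin K) → (Fin m → (Fin (2 * β) → Bool)) → Bool,
      (∀ z, ∃ C, bad C (at' C z) = true) ∧
      ∀ (a S : ℕ) (π : Ref bad S a), a ≤ N ^ k → (∀ j, π.line j ∈ A) →
        (∀ j, ∀ q ∈ π.prem j, q < j) → ∀ L, (∀ z, π.line L z = false) → 4 * S ≤ 2 ^ (β * d) →
        2 * N ^ c * Fintype.card (Fin K → (Fin (2 * β) → Bool)) ≤ ∑ j, (fal (π.line j)).card := by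
  classical
  obtain ⟨T, hT⟩ : ∃ T : ℕ, T = (2 ^ β) ^ (2 * Fintype.card (Fin K) - d) := ⟨_, rfl⟩
  obtain ⟨bad, h1, h2⟩ := exists_rnd_num (T := T) k c m hm hN hLg hLg1 hβ hK hw hwd hd A hA
  refine ⟨bad, h2, fun a S π ha hπ hlt L hL hS => ?_⟩
  have hN0 : 0 < N := by omega
  have hβ1 : 1 ≤ β := by rw [hβ]; nlinarith
  have hw1 : 1 ≤ w := by
    rcases Nat.eq_zero_or_pos w with rfl | h
    · rw [zero_pow (by omega)] at hw
      have : 1 ≤ N ^ (k + c + 1) := Nat.one_le_pow _ _ hN0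
      omega
    · exact h
  have hdK : d ≤ K := le_trans (Nat.le_mul_of_pos_left _ hw1) hwd
  have hKN : K ≤ N := by nlinarith
  have hU : Fintype.card (Fin (2 * β) → Bool) = (2 ^ β) ^ 2 := by
    rw [Fintype.card_fun, Fintype.card_bool, Fintype.card_fin, ← pow_mul, mul_comm]
  obtain ⟨Zc, hZc⟩ : ∃ Zc : ℕ, Zc = Fintype.card (Fin K → (Fin (2 * β) → Bool)) := ⟨_, rfl⟩
  have hmain := falsified_ge π (Q := 2 ^ β) (T := T) (d := d)
    (p := 1 / ((16 * N ^ (k + c) * d ^ m : ℕ) : ℝ)) (x0 := 1 / 2 ^ ((k + c + m) * Lg + 5))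
    (by positivity) (by positivity) hm (by
      calc 2 = 2 ^ 1 := rfl
        _ ≤ 2 ^ β := Nat.pow_le_pow_right (by norm_num) hβ1) hU
    (by rw [Fintype.card_fin]; omega) hT h1 hπ hlt hL rfl
  rw [← hZc] at hmain ⊢
  have hZT : 4 * (S * T) ≤ Zc := by
    have e1 : Zc = (2 ^ β) ^ (2 * K) := by
      rw [hZc, Fintype.card_fun, hU, Fintype.card_fin, ← pow_mul]
    have e2 : (2 ^ β) ^ (2 * K) = (2 ^ β) ^ (2 * K - d) * 2 ^ (β * d) := by
      rw [pow_mul 2 β d, ← pow_add, Nat.sub_add_cancel (by omega)]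
    rw [e1, e2, hT, Fintype.card_fin]
    calc 4 * (S * (2 ^ β) ^ (2 * K - d)) = (2 ^ β) ^ (2 * K - d) * (4 * S) := by ring
      _ ≤ (2 ^ β) ^ (2 * K - d) * 2 ^ (β * d) := Nat.mul_le_mul_left _ hS
  have hZTR : 4 * ((S : ℝ) * T) ≤ Zc := by exact_mod_cast hZT
  -- real estimates
  have hdR : (1 : ℝ) ≤ d := by exact_mod_cast hd
  have hN1 : (1 : ℝ) ≤ N := by exact_mod_cast (by omega : 1 ≤ N)
  have hNR : (0 : ℝ) < N := by linarith
  have hp : 2 * (1 / ((16 * N ^ (k + c) * d ^ m : ℕ) : ℝ)) * (d : ℝ) ^ m =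
      1 / 8 * (1 / (N : ℝ) ^ (k + c)) := by
    push_cast
    have h3 : (d : ℝ) ^ m ≠ 0 := by positivity
    have h4 : (N : ℝ) ^ (k + c) ≠ 0 := by positivity
    field_simp
    norm_num
  have hNLg : (N : ℝ) ≤ 2 ^ Lg := by exact_mod_cast hLg.le
  have hNkc : (N : ℝ) ^ (k + c) ≤ 2 ^ ((k + c) * Lg) := by
    rw [mul_comm (k + c) Lg, pow_mul]
    exact pow_le_pow_left₀ (by positivity) hNLg _
  have hKm : (K : ℝ) ^ m ≤ 2 ^ (m * Lg) := by
    rw [mul_comm m Lg, pow_mul]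
    refine pow_le_pow_left₀ (by positivity) (le_trans ?_ hNLg) _
    exact_mod_cast hKN
  have e3 : (Fintype.card (Fin K) : ℝ) ^ m * (1 / 2 ^ ((k + c + m) * Lg + 5)) ≤
      1 / 32 * (1 / (N : ℝ) ^ (k + c)) := by
    rw [Fintype.card_fin (n := K)]
    have e4 : (2 : ℝ) ^ ((k + c + m) * Lg + 5) = 2 ^ ((k + c) * Lg) * 2 ^ (m * Lg) * 32 := by
      rw [← pow_add, pow_add _ _ 5, ← add_mul]
      norm_num
    rw [e4]
    have e5 : 1 / 32 * (1 / (N : ℝ) ^ (k + c)) = 1 / (32 * (N : ℝ) ^ (k + c)) := by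
      rw [one_div_mul_one_div]
    rw [e5, mul_one_div, div_le_div_iff₀ (by positivity) (by positivity), one_mul]
    calc (K : ℝ) ^ m * (32 * (N : ℝ) ^ (k + c)) ≤ 2 ^ (m * Lg) * (32 * 2 ^ ((k + c) * Lg)) :=
          mul_le_mul hKm (mul_le_mul_of_nonneg_left hNkc (by norm_num)) (by positivity)
            (by positivity)
      _ = 2 ^ ((k + c) * Lg) * 2 ^ (m * Lg) * 32 := by ring
  obtain ⟨e, he⟩ : ∃ e : ℝ, e = 2 * (1 / ((16 * N ^ (k + c) * d ^ m : ℕ) : ℝ)) * (d : ℝ) ^ m +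
      (Fintype.card (Fin K) : ℝ) ^ m * (1 / 2 ^ ((k + c + m) * Lg + 5)) := ⟨_, rfl⟩
  rw [← he] at hmain
  have he1 : e ≤ 5 / 32 * (1 / (N : ℝ) ^ (k + c)) := by
    rw [he, hp]
    linarith
  have he0 : 0 ≤ e := by rw [he]; positivity
  have hinv : 1 / (N : ℝ) ^ (k + c) ≤ 1 := by
    rw [div_le_one (by positivity)]
    exact one_le_pow₀ hN1
  have he2 : e ≤ 1 / 4 := by linarith
  have haR : (a : ℝ) ≤ (N : ℝ) ^ k := by exact_mod_cast ha
  -- the factor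
  have hQb : 1 / ((2 ^ β : ℕ) : ℝ) ≤ 1 / 32 * (1 / (N : ℝ) ^ (k + c)) := by
    rw [one_div_mul_one_div]
    refine one_div_le_one_div_of_le (by positivity) ?_
    push_cast
    have h3 : (2 : ℝ) ^ ((k + c) * Lg + 5) ≤ 2 ^ β := by
      refine pow_le_pow_right₀ (by norm_num) ?_
      rw [hβ]
      nlinarith
    rw [pow_add] at h3
    have h4 : (2 : ℝ) ^ 5 = 32 := by norm_num
    rw [h4] at h3
    linarith
  have hfac : ((a : ℝ) / ((2 ^ β : ℕ) : ℝ) + a * e) * (N : ℝ) ^ c ≤ 1 / 4 := by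
    have h3 : (a : ℝ) / ((2 ^ β : ℕ) : ℝ) + a * e ≤
        (N : ℝ) ^ k * (6 / 32 * (1 / (N : ℝ) ^ (k + c))) := by
      have h4 : (a : ℝ) / ((2 ^ β : ℕ) : ℝ) + a * e = a * (1 / ((2 ^ β : ℕ) : ℝ) + e) := by ring
      rw [h4]
      refine mul_le_mul haR ?_ (by positivity) (by positivity)
      linarith
    calc ((a : ℝ) / ((2 ^ β : ℕ) : ℝ) + a * e) * (N : ℝ) ^ c
        ≤ (N : ℝ) ^ k * (6 / 32 * (1 / (N : ℝ) ^ (k + c))) * (N : ℝ) ^ c :=
          mul_le_mul_of_nonneg_right h3 (by positivity)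
      _ = 6 / 32 := by
          rw [pow_add]
          have h4 : (N : ℝ) ^ k ≠ 0 := by positivity
          have h5 : (N : ℝ) ^ c ≠ 0 := by positivity
          field_simp
      _ ≤ 1 / 4 := by norm_num
  have hfac0 : 0 ≤ (a : ℝ) / ((2 ^ β : ℕ) : ℝ) + a * e := by positivity
  obtain ⟨F, hF⟩ : ∃ F : ℝ, F = ∑ j, ((fal (π.line j)).card : ℝ) := ⟨_, rfl⟩
  rw [← hF] at hmain
  have hF0 : 0 ≤ F := by rw [hF]; positivity
  obtain ⟨q, hq⟩ : ∃ q : ℝ, q = (a : ℝ) / ((2 ^ β : ℕ) : ℝ) + a * e := ⟨_, rfl⟩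
  rw [← hq] at hmain hfac hfac0
  have hZ0 : (0 : ℝ) ≤ Zc := Nat.cast_nonneg _
  have h5 : e * Zc ≤ 1 / 4 * Zc := mul_le_mul_of_nonneg_right he2 hZ0
  have h6 : (1 / 2 : ℝ) * Zc ≤ q * F := by linarith
  have h7 : (N : ℝ) ^ c * ((1 / 2 : ℝ) * Zc) ≤ (N : ℝ) ^ c * (q * F) :=
    mul_le_mul_of_nonneg_left h6 (by positivity)
  have h8 : (N : ℝ) ^ c * (q * F) ≤ 1 / 4 * F := by
    calc (N : ℝ) ^ c * (q * F) = q * (N : ℝ) ^ c * F := by ring
      _ ≤ 1 / 4 * F := mul_le_mul_of_nonneg_right hfac hF0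
  have h9 : 2 * (N : ℝ) ^ c * Zc ≤ F := by linarith
  rw [hF] at h9
  exact_mod_cast h9

end Pool.Agent.Y592.FL
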