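import Mathlib
import Pool.Agent.Y592.FL.Num
import Pool.Agent.Y592.FL.Asym

set_option autoImplicit false
set_option linter.unusedSectionVars false
set_option linter.unusedVariables false

/-!
# The number of falsified lines: CNFs
-/

namespace Pool.Agent.Y592.FL

open Finset Pool.Agent.Y592.DS

section translation

variable {N K b m : ℕ}

/-- position of the variable `(i, j)` -/
def emb (h : K * b ≤ N) : Fin K × Fin b ↪ Fin N :=
  finProdFinEquiv.toEmbedding.trans (Fin.castLEEmb h)

/-- extension of an assignment by the values of `α` -/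
noncomputable def up (h : K * b ≤ N) (α : Fin N → Bool) (z : Fin K → (Fin b → Bool)) :
    Fin N → Bool :=
  Function.extend (emb h) (fun x => z x.1 x.2) α

/-- restriction of an assignment -/
def dn (h : K * b ≤ N) (α : Fin N → Bool) : Fin K → (Fin b → Bool) :=
  fun i j => α (emb h (i, j))

theorem up_emb (h : K * b ≤ N) (α : Fin N → Bool) (z : Fin K → (Fin b → Bool)) (i : Fin K)
    (j : Fin b) : up h α z (emb h (i, j)) = z i j :=
  (emb h).injective.extend_apply (fun x : Fin K × Fin b => z x.1 x.2) α (i, j)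

theorem dn_up (h : K * b ≤ N) (α : Fin N → Bool) (z : Fin K → (Fin b → Bool)) :
    dn h (up h α z) = z := by
  funext i j
  exact up_emb h α z i j

theorem up_up (h : K * b ≤ N) (α : Fin N → Bool) (z : Fin K → (Fin b → Bool)) :
    up h (up h α z) (dn h α) = α := by
  funext v
  by_cases hv : ∃ x, emb h x = v
  · obtain ⟨⟨i, j⟩, rfl⟩ := hv
    rw [up_emb]
    rfl
  · unfold up
    rw [Function.extend_apply' _ _ _ hv, Function.extend_apply' _ _ _ hv]

/-- averaging over the backgrounds -/
theorem sum_up (h : K * b ≤ N) (g : (Fin N → Bool) → ℕ) :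
    ∑ α : Fin N → Bool, ∑ z : Fin K → (Fin b → Bool), g (up h α z) =
      Fintype.card (Fin K → (Fin b → Bool)) * ∑ α, g α := by
  rw [← Fintype.sum_prod_type' (f := fun (α : Fin N → Bool) (z : Fin K → (Fin b → Bool)) =>
    g (up h α z))]
  have hinv : Function.Involutive
      (fun x : (Fin N → Bool) × (Fin K → (Fin b → Bool)) => (up h x.1 x.2, dn h x.1)) := by
    rintro ⟨α, z⟩
    show (up h (up h α z) (dn h α), dn h (up h α z)) = (α, z)
    rw [up_up, dn_up]
  have h1 := Equiv.sum_comp (Function.Involutive.toPerm _ hinv)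
    (fun x : (Fin N → Bool) × (Fin K → (Fin b → Bool)) => g x.1)
  have h2 : ∑ x : (Fin N → Bool) × (Fin K → (Fin b → Bool)), g (up h x.1 x.2) =
      ∑ x : (Fin N → Bool) × (Fin K → (Fin b → Bool)), g x.1 := h1
  rw [h2, Fintype.sum_prod_type]
  simp only [sum_const, card_univ, smul_eq_mul]
  rw [mul_sum]

/-- the clause which says that the tuple `C` of blocks does not have the value `u` -/
def clause (h : K * b ≤ N) (c : Ix m (Fin K) (Fin b → Bool)) : Finset (Fin N × Bool) :=
  univ.image fun x : Fin m × Fin b => (emb h (c.1 x.1, x.2), !(c.2 x.1 x.2))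

theorem not_holds (h : K * b ≤ N) (c : Ix m (Fin K) (Fin b → Bool)) (α : Fin N → Bool) :
    ¬ (∃ l ∈ clause h c, α l.1 = l.2) ↔ at' c.1 (dn h α) = c.2 := by
  unfold clause
  constructor
  · intro hn
    funext x y
    by_contra hne
    apply hn
    refine ⟨(emb h (c.1 x, y), !(c.2 x y)), mem_image.2 ⟨(x, y), mem_univ _, rfl⟩, ?_⟩
    show α (emb h (c.1 x, y)) = !(c.2 x y)
    have hne' : ¬ α (emb h (c.1 x, y)) = c.2 x y := hne
    revert hne'
    cases α (emb h (c.1 x, y)) <;> cases c.2 x y <;> simp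
  · rintro he ⟨l, hl, hα⟩
    obtain ⟨⟨x, y⟩, _, rfl⟩ := mem_image.1 hl
    have h1 : α (emb h (c.1 x, y)) = c.2 x y := congrFun (congrFun he x) y
    have h2 : α (emb h (c.1 x, y)) = !(c.2 x y) := hα
    rw [h1] at h2
    revert h2
    cases c.2 x y <;> simp

end translation

/-- the main theorem, with unbundled refutations -/
theorem main (k c : ℕ) (ε' : ℝ) (hε' : 0 < ε') : ∃ k' N0 : ℕ, ∀ N ≥ N0,
    ∀ A : Finset ((Fin N → Bool) → Bool), A.card ≤ 2 ^ (N ^ k) →
      ∃ F : Finset (Finset (Fin N × Bool)), F.card ≤ N ^ k' ∧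
        (∀ cl ∈ F, cl.card ≤ k' * Nat.log 2 N) ∧
        (∀ z : Fin N → Bool, ∃ cl ∈ F, ¬ ∃ l ∈ cl, z l.1 = l.2) ∧
        ∀ (a S : ℕ) (line : Fin S → (Fin N → Bool) → Bool) (prem : Fin S → Finset (Fin S)),
          (∀ j, line j ∈ A) → (∀ j, (prem j).card ≤ a) → (∀ j, ∀ p ∈ prem j, p < j) →
          (∀ j, ∃ C ⊆ F, C.card ≤ a ∧ ∀ z : Fin N → Bool,
            (∀ cl ∈ C, ∃ l ∈ cl, z l.1 = l.2) →
            (∀ p ∈ prem j, line p z = true) → line j z = true) →
          (∃ j, ∀ z, line j z = false) → a ≤ N ^ k →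
          (S : ℝ) < (2 : ℝ) ^ ((N : ℝ) ^ (1 - ε')) →
          N ^ c * 2 ^ N < ∑ j, (univ.filter fun z : Fin N → Bool => line j z = false).card := by
  classical
  obtain ⟨ε, hε, hε1, hεε⟩ : ∃ ε : ℝ, 0 < ε ∧ ε ≤ 1 ∧ ε ≤ ε' :=
    ⟨min ε' 1, lt_min hε' one_pos, min_le_right _ _, min_le_left _ _⟩
  obtain ⟨m, hm⟩ : ∃ m : ℕ, 8 * ((k + c + 1 : ℕ) : ℝ) / ε ≤ m := exists_nat_ge _
  have hm0 : 0 < m := by
    rcases Nat.eq_zero_or_pos m with rfl | h
    · have : 0 < 8 * ((k + c + 1 : ℕ) : ℝ) / ε := by positivity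
      simp only [Nat.cast_zero] at hm
      linarith
    · exact h
  obtain ⟨q, hq⟩ : ∃ q : ℕ, q = 2 * k + c + m + 8 := ⟨_, rfl⟩
  obtain ⟨N1, hN1⟩ := Filter.eventually_atTop.1
    (params ε hε hε1 q m (k + c + 1) (by omega) (by omega) hm)
  refine ⟨m + 4 * q * m, max (max N1 (m + 42)) 4, fun N hN A hA => ?_⟩
  have hNN1 : N1 ≤ N := (le_max_left _ _).trans ((le_max_left _ _).trans hN)
  have hNm : m + 42 ≤ N := (le_max_right _ _).trans ((le_max_left _ _).trans hN)
  clear hN
  obtain ⟨K, w, d, hK, hw, hwd, hd2, hd7⟩ := hN1 N hNN1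
  obtain ⟨Lg, hLg⟩ : ∃ Lg : ℕ, Lg = Nat.log 2 N + 1 := ⟨_, rfl⟩
  obtain ⟨β, hβ⟩ : ∃ β : ℕ, β = q * Lg := ⟨_, rfl⟩
  rw [← hLg, ← hβ] at hK
  have hβ' : β = (2 * k + c + m + 8) * Lg := by rw [hβ, hq]
  have hLg1 : 1 ≤ Lg := by omega
  have hNLg : N < 2 ^ Lg := by rw [hLg]; exact Nat.lt_pow_succ_log_self (by norm_num) N
  have hLgN : 2 ^ Lg ≤ N ^ 2 := by
    rw [hLg, pow_succ, pow_two]
    exact Nat.mul_le_mul (Nat.pow_log_le_self 2 (by omega)) (by omega)
  have hlog1 : 1 ≤ Nat.log 2 N := Nat.log_pos (by norm_num) (by omega)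
  have hβ1 : 1 ≤ β := by rw [hβ]; nlinarith
  have hKN : K ≤ N := by nlinarith
  obtain ⟨A', hA'⟩ : ∃ A' : Finset ((Fin K → (Fin (2 * β) → Bool)) → Bool),
      A' = (A ×ˢ (univ : Finset (Fin N → Bool))).image fun x z => x.1 (up hK x.2 z) := ⟨_, rfl⟩
  have hA'c : A'.card ≤ 2 ^ (N ^ k + N) := by
    rw [hA', pow_add]
    refine card_image_le.trans ?_
    rw [card_product, card_univ]
    refine Nat.mul_le_mul hA (le_of_eq ?_)
    simp
  obtain ⟨bad, hsat, hmain⟩ := fals_num k c m hm0 hNm hNLg hLg1 hβ' hK hw hwd (by omega) A' hA'c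
  refine ⟨(univ.filter fun c : Ix m (Fin K) (Fin (2 * β) → Bool) => bad c.1 c.2 = true).image
    (clause hK), ?_, ?_, ?_, ?_⟩
  · -- number of clauses
    refine card_image_le.trans ((card_le_univ _).trans ?_)
    have h1 : Fintype.card (Ix m (Fin K) (Fin (2 * β) → Bool)) = K ^ m * (2 ^ (2 * β)) ^ m := by
      simp
    rw [h1, pow_add]
    refine Nat.mul_le_mul (Nat.pow_le_pow_left hKN m) ?_
    calc (2 ^ (2 * β)) ^ m = (2 ^ Lg) ^ (2 * q * m) := by
          rw [← pow_mul, ← pow_mul, hβ]
          congr 1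
          ring
      _ ≤ (N ^ 2) ^ (2 * q * m) := Nat.pow_le_pow_left hLgN _
      _ = N ^ (4 * q * m) := by
          rw [← pow_mul]
          congr 1
          ring
  · -- width
    intro cl hcl
    obtain ⟨x, _, rfl⟩ := mem_image.1 hcl
    refine (card_image_le (s := univ)).trans ?_
    rw [card_univ, Fintype.card_prod, Fintype.card_fin, Fintype.card_fin]
    have h1 : β ≤ q * (2 * Nat.log 2 N) := by
      rw [hβ, hLg]
      exact Nat.mul_le_mul_left _ (by omega)
    calc m * (2 * β) ≤ m * (2 * (q * (2 * Nat.log 2 N))) :=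
          Nat.mul_le_mul_left _ (Nat.mul_le_mul_left _ h1)
      _ = (4 * q * m) * Nat.log 2 N := by ring
      _ ≤ (m + 4 * q * m) * Nat.log 2 N := Nat.mul_le_mul_right _ (by omega)
  · -- unsatisfiable
    intro α
    obtain ⟨C, hC⟩ := hsat (dn hK α)
    refine ⟨clause hK (C, at' C (dn hK α)), ?_, ?_⟩
    · exact mem_image.2 ⟨_, mem_filter.2 ⟨mem_univ _, hC⟩, rfl⟩
    · rw [not_holds]
  · -- refutations
    intro a S line prem hmem hprem hlt hsound hfinal ha hS
    -- preimages of the clauses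
    have hpre : ∀ cl ∈ (univ.filter fun c : Ix m (Fin K) (Fin (2 * β) → Bool) =>
        bad c.1 c.2 = true).image (clause hK), ∃ c : Ix m (Fin K) (Fin (2 * β) → Bool),
        bad c.1 c.2 = true ∧ clause hK c = cl := by
      intro cl hcl
      obtain ⟨x, hx, rfl⟩ := mem_image.1 hcl
      exact ⟨x, (mem_filter.1 hx).2, rfl⟩
    obtain ⟨z0, hz0⟩ : ∃ c : Ix m (Fin K) (Fin (2 * β) → Bool), bad c.1 c.2 = true := by
      obtain ⟨C, hC⟩ := hsat fun _ _ => false
      exact ⟨(C, _), hC⟩
    obtain ⟨g, hg⟩ : ∃ g : Finset (Fin N × Bool) → Ix m (Fin K) (Fin (2 * β) → Bool),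
        ∀ cl ∈ (univ.filter fun c : Ix m (Fin K) (Fin (2 * β) → Bool) =>
          bad c.1 c.2 = true).image (clause hK),
          bad (g cl).1 (g cl).2 = true ∧ clause hK (g cl) = cl := by
      have : ∀ cl : Finset (Fin N × Bool), ∃ c : Ix m (Fin K) (Fin (2 * β) → Bool),
          cl ∈ (univ.filter fun c : Ix m (Fin K) (Fin (2 * β) → Bool) =>
            bad c.1 c.2 = true).image (clause hK) → bad c.1 c.2 = true ∧ clause hK c = cl := by
        intro cl
        by_cases hcl : cl ∈ (univ.filter fun c : Ix m (Fin K) (Fin (2 * β) → Bool) =>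
            bad c.1 c.2 = true).image (clause hK)
        · obtain ⟨c, hc⟩ := hpre cl hcl
          exact ⟨c, fun _ => hc⟩
        · exact ⟨z0, fun h => absurd h hcl⟩
      choose g hg using this
      exact ⟨g, hg⟩
    choose Cs hCs1 hCs2 hCs3 using hsound
    obtain ⟨L, hL⟩ := hfinal
    have hS4 : 4 * S ≤ 2 ^ (β * d) := by
      have hN1R : (1 : ℝ) ≤ N := by exact_mod_cast (by omega : 1 ≤ N)
      have e1 : (N : ℝ) ^ (1 - ε') ≤ (N : ℝ) ^ (1 - ε / 2) :=
        Real.rpow_le_rpow_of_exponent_le hN1R (by linarith)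
      have e2 : (1 : ℝ) ≤ (N : ℝ) ^ (1 - ε / 2) := Real.one_le_rpow hN1R (by linarith)
      have e3 : (N : ℝ) ^ (1 - ε') + 2 ≤ ((β * d : ℕ) : ℝ) := by
        have e4 : (d : ℝ) ≤ ((β * d : ℕ) : ℝ) := by
          exact_mod_cast Nat.le_mul_of_pos_left d hβ1
        linarith
      have e5 : (4 : ℝ) * S ≤ 2 ^ (β * d) := by
        calc (4 : ℝ) * S ≤ 4 * (2 : ℝ) ^ ((N : ℝ) ^ (1 - ε')) :=
              mul_le_mul_of_nonneg_left hS.le (by norm_num)
          _ = (2 : ℝ) ^ ((N : ℝ) ^ (1 - ε') + 2) := by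
              rw [Real.rpow_add (by norm_num)]
              norm_num
              ring
          _ ≤ (2 : ℝ) ^ ((β * d : ℕ) : ℝ) :=
              Real.rpow_le_rpow_of_exponent_le (by norm_num) e3
          _ = 2 ^ (β * d) := Real.rpow_natCast _ _
      exact_mod_cast e5
    -- the restrictions of the refutation
    have hrestr : ∀ α : Fin N → Bool, 2 * N ^ c * Fintype.card (Fin K → (Fin (2 * β) → Bool)) ≤
        ∑ j, ∑ z, if line j (up hK α z) = false then 1 else 0 := by
      intro α
      let ρ : Ref bad S a :=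
        { line := fun j z => line j (up hK α z)
          prem := prem
          cl := fun j => (Cs j).image g
          card_prem := hprem
          card_cl := fun j => card_image_le.trans (hCs2 j)
          cl_bad := by
            intro j c hc
            obtain ⟨cl, hcl, rfl⟩ := mem_image.1 hc
            exact (hg cl (hCs1 j hcl)).1
          sound := by
            intro j z hz
            by_contra hcon
            push Not at hcon
            obtain ⟨h1, h2⟩ := hcon
            have h3 := hCs3 j (up hK α z) (fun cl hcl => by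
              by_contra hnot
              rw [← (hg cl (hCs1 j hcl)).2, not_holds, dn_up] at hnot
              exact h2 (g cl) (mem_image_of_mem _ hcl) hnot) (fun p hp => by
              have := h1 p hp
              simpa using this)
            rw [h3] at hz
            exact absurd hz (by simp)
          h := fun j => j.val
          h_lt := fun j p hp => hlt j p hp }
      have h1 := hmain a S ρ ha (fun j => by
        rw [hA', mem_image]
        exact ⟨(line j, α), mem_product.2 ⟨hmem j, mem_univ α⟩, rfl⟩) hlt L (fun z => hL _) hS4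
      refine h1.trans (le_of_eq (sum_congr rfl fun j _ => ?_))
      unfold fal
      rw [card_filter]
    have hsum : 2 ^ N * (2 * N ^ c * Fintype.card (Fin K → (Fin (2 * β) → Bool))) ≤
        ∑ α : Fin N → Bool, ∑ j, ∑ z : Fin K → (Fin (2 * β) → Bool),
          if line j (up hK α z) = false then 1 else 0 := by
      have h1 : ∑ α : Fin N → Bool, 2 * N ^ c * Fintype.card (Fin K → (Fin (2 * β) → Bool)) ≤
          ∑ α : Fin N → Bool, ∑ j, ∑ z : Fin K → (Fin (2 * β) → Bool),
            if line j (up hK α z) = false then 1 else 0 := sum_le_sum fun α _ => hrestr α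
      rw [sum_const, card_univ, smul_eq_mul] at h1
      simpa using h1
    rw [sum_comm] at hsum
    have hswap : ∀ j, ∑ α : Fin N → Bool, ∑ z : Fin K → (Fin (2 * β) → Bool),
        (if line j (up hK α z) = false then 1 else 0) =
        Fintype.card (Fin K → (Fin (2 * β) → Bool)) *
          (univ.filter fun z : Fin N → Bool => line j z = false).card := by
      intro j
      rw [card_filter]
      exact sum_up hK fun α => if line j α = false then 1 else 0
    simp only [hswap] at hsum
    rw [← mul_sum] at hsum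
    have hZ0 : 0 < Fintype.card (Fin K → (Fin (2 * β) → Bool)) := Fintype.card_pos
    have hfin : 2 ^ N * (2 * N ^ c) ≤
        ∑ j, (univ.filter fun z : Fin N → Bool => line j z = false).card := by
      refine Nat.le_of_mul_le_mul_left ?_ hZ0
      refine le_trans (le_of_eq ?_) hsum
      ring
    have hpos : 0 < N ^ c * 2 ^ N := Nat.mul_pos (Nat.pow_pos (by omega)) (by positivity)
    calc N ^ c * 2 ^ N < 2 ^ N * (2 * N ^ c) := by
          have : 2 ^ N * (2 * N ^ c) = 2 * (N ^ c * 2 ^ N) := by ring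
          omega
      _ ≤ _ := hfin

end Pool.Agent.Y592.FL
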